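import Pool.Agent.U167.SA.Stm2
import Pool.Agent.U408.SA.QP

/-!
Project SA (helper167), package QP2: the events `Q2 s` are local, increasing and have probability
bounded below.
-/

set_option autoImplicit false

namespace Pool.Agent.U694.SA

open H974 Finset Filter Topology Pool.Agent.U167.SA Pool.Agent.U408.SA

theorem sub_lr1 {s m : ℕ} (hs : 0 < s) (h1 : 4 * s ≤ m) (h2 : m ≤ 20 * s) :
    LRE (-(3 * m) : ℤ) (3 * m) (-(3 * m)) (-m) ⊆ Rg s := by
  rintro ⟨x, y, _ | _⟩ h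
  · simp only [mem_LRE_false] at h
    simp only [Rg, boxE, Finset.mem_sdiff, mem_RE_false]
    push_cast
    omega
  · simp only [mem_LRE_true] at h
    simp only [Rg, boxE, Finset.mem_sdiff, mem_RE_true]
    push_cast
    omega

theorem sub_tb2 {s m : ℕ} (hs : 0 < s) (h1 : 4 * s ≤ m) (h2 : m ≤ 20 * s) :
    TBE (-(3 * m) : ℤ) (-m) (-(3 * m)) (3 * m) ⊆ Rg s := by
  rintro ⟨x, y, _ | _⟩ h
  · simp only [mem_TBE_false] at h
    simp only [Rg, boxE, Finset.mem_sdiff, mem_RE_false]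
    push_cast
    omega
  · simp only [mem_TBE_true] at h
    simp only [Rg, boxE, Finset.mem_sdiff, mem_RE_true]
    push_cast
    omega

theorem sub_lr2 {s m : ℕ} (hs : 0 < s) (h1 : 4 * s ≤ m) (h2 : m ≤ 20 * s) :
    LRE (-(3 * m) : ℤ) (4 * m) m (3 * m) ⊆ Rg s := by
  rintro ⟨x, y, _ | _⟩ h
  · simp only [mem_LRE_false] at h
    simp only [Rg, boxE, Finset.mem_sdiff, mem_RE_false]
    push_cast
    omega
  · simp only [mem_LRE_true] at h
    simp only [Rg, boxE, Finset.mem_sdiff, mem_RE_true]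
    push_cast
    omega

theorem bar2_local {s m : ℕ} (hs : 0 < s) (h1 : 4 * s ≤ m) (h2 : m ≤ 20 * s) (F : Finset Edg) :
    Bar2 m F ↔ Bar2 m (F ∩ Rg s) :=
  and_congr (TBc_local (sub_tb hs h1 h2)) (and_congr (LRc_local (sub_lr1 hs h1 h2))
    (and_congr (TBc_local (sub_tb2 hs h1 h2)) (LRc_local (sub_lr2 hs h1 h2))))

theorem bar2_mono {m : ℕ} {F G : Finset Edg} (h : F ⊆ G) (hF : Bar2 m F) : Bar2 m G :=
  ⟨hF.1.mono h, hF.2.1.mono h, hF.2.2.1.mono h, hF.2.2.2.mono h⟩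

theorem q2_local {s : ℕ} (hs : 0 < s) (F : Finset Edg) : Q2 s F ↔ Q2 s (F ∩ Rg s) :=
  and_congr (bar2_local hs (le_refl _) (by omega) F)
    (and_congr (bar2_local hs (by omega) (le_refl _) F) (LRc_local (sub_rad hs)))

theorem q2_mono {s : ℕ} {F G : Finset Edg} (h : F ⊆ G) (hF : Q2 s F) : Q2 s G :=
  ⟨bar2_mono h hF.1, bar2_mono h hF.2.1, hF.2.2.mono h⟩

theorem bar2_incr (S : Finset Edg) (m : ℕ) : IncrE S (Bar2 m) := fun _ _ h _ hF => bar2_mono h hF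

theorem pr_bar2 {d : ℝ} (hd0 : 0 < d) (hd : ∀ w g : ℤ, 1 ≤ g → 0 < w → w ≤ 81 * g →
    d ≤ hh (1/2) w g) {s m : ℕ} {S : Finset Edg} (hs : 0 < s) (h1 : 4 * s ≤ m) (h2 : m ≤ 20 * s)
    (hR : Rg s ⊆ S) :
    d * (d * (d * d)) ≤ Pr (fun _ => (1/2 : ℝ)) S (Bar2 m) := by
  have hm : 0 < m := by omega
  refine har (by positivity) (TBc_incr S _ _ _ _)
    (fun F G h _ hF => ⟨hF.1.mono h, hF.2.1.mono h, hF.2.2.mono h⟩) ?_ ?_
  · rw [pr_TBc (1/2) ((sub_tb hs h1 h2).trans hR)]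
    exact hd _ _ (by omega) (by omega) (by omega)
  refine har (by positivity) (LRc_incr S _ _ _ _)
    (fun F G h _ hF => ⟨hF.1.mono h, hF.2.mono h⟩) ?_ ?_
  · rw [pr_LRc (1/2) ((sub_lr1 hs h1 h2).trans hR)]
    exact hd _ _ (by omega) (by omega) (by omega)
  refine har hd0.le (TBc_incr S _ _ _ _) (LRc_incr S _ _ _ _) ?_ ?_
  · rw [pr_TBc (1/2) ((sub_tb2 hs h1 h2).trans hR)]
    exact hd _ _ (by omega) (by omega) (by omega)
  · rw [pr_LRc (1/2) ((sub_lr2 hs h1 h2).trans hR)]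
    exact hd _ _ (by omega) (by omega) (by omega)

theorem t_QP2 : QPStm2 := by
  obtain ⟨d, hd0, hd1, hd⟩ := exists_low
  refine ⟨d * (d * (d * d)) * (d * (d * (d * d)) * d), by positivity, ?_, fun s hs =>
    ⟨q2_local hs, fun F G h hF => q2_mono h hF, fun S hS => ?_⟩⟩
  · have h2 : d * d ≤ 1 := mul_le_one₀ hd1 hd0.le hd1
    have h3 : d * (d * d) ≤ 1 := mul_le_one₀ hd1 (by positivity) h2
    have h4 : d * (d * (d * d)) ≤ 1 := mul_le_one₀ hd1 (by positivity) h3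
    exact mul_le_one₀ h4 (by positivity) (mul_le_one₀ h4 hd0.le hd1)
  · have hR : Rg s ⊆ S := Finset.sdiff_subset.trans hS
    refine har (by positivity) (bar2_incr S _)
      (fun F G h _ hF => ⟨bar2_mono h hF.1, hF.2.mono h⟩)
      (pr_bar2 hd0 hd hs (le_refl _) (by omega) hR) ?_
    refine har hd0.le (bar2_incr S _) (LRc_incr S _ _ _ _)
      (pr_bar2 hd0 hd hs (by omega) (le_refl _) hR) ?_
    rw [pr_LRc (1/2) ((sub_rad hs).trans hR)]
    exact hd _ _ (by omega) (by omega) (by omega)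

end Pool.Agent.U694.SA
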